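import Pool.Agent.Illum.SimplexMain

set_option autoImplicit false

/-!
# Covering bodies with the symmetries of a simplex

Every convex body in `ℝ^d` that is invariant under all affine maps permuting the vertices of some
nondegenerate simplex is covered by at most `2 ^ d` translates of its interior.
-/

namespace Pool.Agent.Illum.Old.SimplexSymmetry

/-- Let `d ≥ 1`, let `K` be a convex body in `ℝ^d`, and let `p 0, …, p d` be the vertices of a
nondegenerate simplex such that `A '' K = K` for every affine map `A` permuting these vertices.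
Then `K` is covered by at most `2 ^ d` translates of its interior. -/
theorem result (d : ℕ) (hd : 1 ≤ d) (K : Set (EuclideanSpace ℝ (Fin d)))
    (hconv : Convex ℝ K) (hcomp : IsCompact K) (hint : (interior K).Nonempty)
    (p : Fin (d + 1) → EuclideanSpace ℝ (Fin d)) (hp : AffineIndependent ℝ p)
    (hsymm : ∀ (σ : Equiv.Perm (Fin (d + 1)))
      (A : EuclideanSpace ℝ (Fin d) →ᵃ[ℝ] EuclideanSpace ℝ (Fin d)),
      (∀ i, A (p i) = p (σ i)) → A '' K = K) :
    ∃ T : Finset (EuclideanSpace ℝ (Fin d)),
      T.card ≤ 2 ^ d ∧ K ⊆ ⋃ t ∈ T, (fun x => t + x) '' interior K := by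
  have htop : affineSpan ℝ (Set.range p) = ⊤ := by
    rw [hp.affineSpan_eq_top_iff_card_eq_finrank_add_one, Fintype.card_fin,
      finrank_euclideanSpace_fin]
  let b : AffineBasis (Fin (d + 1)) ℝ (EuclideanSpace ℝ (Fin d)) := ⟨p, hp, htop⟩
  have hbp : ∀ i, b i = p i := fun i => rfl
  have hs : Pool.Agent.Illum.Symm b K := by
    intro σ w hw hmem
    let A : EuclideanSpace ℝ (Fin d) →ᵃ[ℝ] EuclideanSpace ℝ (Fin d) :=
      ((Fintype.linearCombination ℝ (fun i => b (σ i))).toAffineMap).comp b.coords
    have hA : ∀ x, A x = ∑ i, b.coord i x • b (σ i) := by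
      intro x
      simp [A, Fintype.linearCombination_apply]
    have hAp : ∀ i, A (p i) = p (σ i) := by
      intro i
      rw [hA, ← hbp i, ← hbp (σ i), Finset.sum_eq_single i]
      · rw [b.coord_apply_eq, one_smul]
      · intro j _ hj
        rw [b.coord_apply_ne hj, zero_smul]
      · intro h
        exact absurd (Finset.mem_univ _) h
    have := hsymm σ A hAp
    rw [← this]
    refine ⟨_, hmem, ?_⟩
    rw [hA]
    apply Finset.sum_congr rfl
    intro i _
    rw [Pool.Agent.Illum.coord_combination b hw]
  exact Pool.Agent.Illum.simplex_cover hs hd hconv hcomp hint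

end Pool.Agent.Illum.Old.SimplexSymmetry
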